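import Pool.Agent.Helper45.CF.GoalsB
import Pool.Agent.Helper61.CAR.AssemblyQ

/-!
# Project CF (MP_d97caa_an), packet CPQ: the quadratic map of a column is completely positive
-/

set_option autoImplicit false

open scoped ComplexOrder ComplexConjugate Topology

namespace Pool.Agent.Helper50.CF

open Pool.Agent.Helper34.CAR Pool.Agent.Helper39.CR Pool.Agent.Helper61.CAR
  Pool.Agent.Helper44.CAR Pool.Agent.Helper45.CF

noncomputable section

theorem sum_sq {C : Type} [CStarAlgebra C] {ι : Type} (t : Finset ι) (f : ι → C) :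
    ∃ c : C, ∑ i ∈ t, star (f i) * f i = star c * c := by
  let _ : PartialOrder C := CStarAlgebra.spectralOrder C
  have _ : StarOrderedRing C := CStarAlgebra.spectralOrderedRing C
  have h : 0 ≤ ∑ i ∈ t, star (f i) * f i := Finset.sum_nonneg fun i _ => star_mul_self_nonneg _
  exact CStarAlgebra.nonneg_iff_eq_star_mul_self.1 h

/-- The quadratic map. -/
def ql {A : Type} [CStarAlgebra A] {m : ℕ} (v : Fin m → A) :
    CStarMatrix (Fin m) (Fin m) ℂ →ₗ[ℂ] A where
  toFun x := qf x v
  map_add' x y := by
    unfold qf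
    rw [← Finset.sum_add_distrib]
    refine Finset.sum_congr rfl fun p _ => ?_
    rw [← Finset.sum_add_distrib]
    refine Finset.sum_congr rfl fun q _ => ?_
    rw [CStarMatrix.add_apply, add_smul]
  map_smul' c x := by
    unfold qf
    rw [RingHom.id_apply, Finset.smul_sum]
    refine Finset.sum_congr rfl fun p _ => ?_
    rw [Finset.smul_sum]
    refine Finset.sum_congr rfl fun q _ => ?_
    rw [CStarMatrix.smul_apply, smul_eq_mul, mul_smul]

theorem ql_apply {A : Type} [CStarAlgebra A] {m : ℕ} (v : Fin m → A)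
    (x : CStarMatrix (Fin m) (Fin m) ℂ) : ql v x = ∑ p, ∑ q, x p q • (star (v p) * v q) := rfl

/-- the entries of the rows. -/
def dd {A : Type} [CStarAlgebra A] {m k : ℕ} (v : Fin m → A)
    (a : CStarMatrix (Fin k) (Fin k) (CStarMatrix (Fin m) (Fin m) ℂ)) (x : Fin k × Fin m)
    (t : Fin k) : A := ∑ q, (a x.1 t) x.2 q • v q

theorem key {A : Type} [CStarAlgebra A] {m k : ℕ} (v : Fin m → A)
    (a : CStarMatrix (Fin k) (Fin k) (CStarMatrix (Fin m) (Fin m) ℂ)) (s t : Fin k) :
    ql v ((star a * a) s t) = ∑ x : Fin k × Fin m, star (dd v a x s) * dd v a x t := by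
  have h1 : ∀ p q : Fin m, ((star a * a) s t) p q =
      ∑ x : Fin k × Fin m, star ((a x.1 s) x.2 p) * (a x.1 t) x.2 q := by
    intro p q
    rw [CStarMatrix.mul_apply, sum_entry', Fintype.sum_prod_type]
    refine Finset.sum_congr rfl fun r _ => ?_
    rw [CStarMatrix.mul_apply]
    rfl
  rw [ql_apply]
  have h2 : ∀ x : Fin k × Fin m, star (dd v a x s) * dd v a x t =
      ∑ p, ∑ q, (star ((a x.1 s) x.2 p) * (a x.1 t) x.2 q) • (star (v p) * v q) := by
    intro x
    unfold dd
    rw [star_sum, Finset.sum_mul]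
    refine Finset.sum_congr rfl fun p _ => ?_
    rw [Finset.mul_sum]
    refine Finset.sum_congr rfl fun q _ => ?_
    rw [star_smul, smul_mul_assoc, mul_smul_comm, smul_smul]
  simp only [h1, h2]
  symm
  rw [Finset.sum_comm]
  refine Finset.sum_congr rfl fun p _ => ?_
  rw [Finset.sum_comm]
  refine Finset.sum_congr rfl fun q _ => ?_
  rw [Finset.sum_smul]

theorem t : S_CPQ := by
  intro A _ m v hv
  refine ⟨ql v, ?_, ?_, fun x => rfl⟩
  · intro k a
    rcases k with _ | k
    · refine ⟨0, ?_⟩
      ext i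
      exact i.elim0
    · let R : Fin (k + 1) × Fin m → Mt (Fin (k + 1)) A :=
        fun x => Mt.of fun i t => if i = 0 then dd v a x t else 0
      obtain ⟨c, hc⟩ := sum_sq Finset.univ R
      refine ⟨(show CStarMatrix (Fin (k + 1)) (Fin (k + 1)) A from c), ?_⟩
      have h : ∀ s t : Fin (k + 1), ql v ((star a * a) s t) = (star c * c) s t := by
        intro s t
        rw [← hc, Mt.sum_apply, key]
        refine Finset.sum_congr rfl fun x _ => ?_
        rw [Mt.mul_apply, Finset.sum_eq_single 0]
        · rw [Mt.star_apply]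
          show _ = star (if (0 : Fin (k + 1)) = 0 then dd v a x s else 0) *
            (if (0 : Fin (k + 1)) = 0 then dd v a x t else 0)
          rw [if_pos rfl, if_pos rfl]
        · intro i _ hi
          show (star (R x)) s i * (if i = 0 then dd v a x t else 0) = 0
          rw [if_neg hi, mul_zero]
        · intro h
          exact absurd (Finset.mem_univ _) h
      ext s t
      exact h s t
  · intro x
    have h := s_COL A (Fin m) x v
    refine (show ‖ql v x‖ = ‖qf x v‖ from rfl).le.trans (h.trans ?_)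
    calc ‖x‖ * ‖∑ p, star (v p) * v p‖ ≤ ‖x‖ * 1 :=
          mul_le_mul_of_nonneg_left hv (norm_nonneg _)
      _ = ‖x‖ := mul_one _

end

end Pool.Agent.Helper50.CF
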