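import Pool.Agent.Helper55.CF.Goals

set_option autoImplicit false

open MeasureTheory Complex
open scoped ContDiff ComplexConjugate

noncomputable section
namespace Helper50CF

open CF55

/-- lower bound of an integral by a product of three plane sets -/
lemma lower (F : Z → ℝ) (hF : Integrable F) (hF0 : ∀ z, 0 ≤ F z) (A : Fin 3 → Set ℂ)
    (hA : ∀ i, MeasurableSet (A i)) (hfin : ∀ i, volume (A i) ≠ ⊤) (m : ℝ)
    (hm : ∀ z : Z, (∀ i, z i ∈ A i) → m ≤ F z) :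
    m * ∏ i, (volume (A i)).toReal ≤ ∫ z, F z := by
  set D : Set Z := Set.pi Set.univ A with hD
  have hDm : MeasurableSet D := MeasurableSet.univ_pi hA
  have hvol : volume D = ∏ i, volume (A i) := by
    rw [hD, volume_pi_pi]
  have hDfin : volume D ≠ ⊤ := by
    rw [hvol]; exact ENNReal.prod_ne_top (fun i _ => hfin i)
  have h1 : ∫ z in D, F z ≤ ∫ z, F z :=
    setIntegral_le_integral hF (ae_of_all _ hF0)
  have h2 : ∫ _z in D, m ≤ ∫ z in D, F z := by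
    refine setIntegral_mono_on (integrableOn_const hDfin) hF.integrableOn hDm ?_
    intro z hz
    exact hm z (fun i => hz i (Set.mem_univ i))
  have h3 : ∫ _z in D, m = m * ∏ i, (volume (A i)).toReal := by
    rw [setIntegral_const, Measure.real, hvol, ENNReal.toReal_prod, smul_eq_mul, mul_comm]
  linarith

lemma vol_cb (a : ℂ) (r : ℝ) (hr : 0 ≤ r) :
    (volume (Metric.closedBall a r)).toReal = Real.pi * r ^ 2 := by
  rw [Complex.volume_closedBall]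
  simp [ENNReal.toReal_mul, ENNReal.toReal_ofReal hr, mul_comm]

lemma vol_cb_fin (a : ℂ) (r : ℝ) : volume (Metric.closedBall a r) ≠ ⊤ :=
  (measure_closedBall_lt_top).ne

/-- vanishing constants in common form -/
lemma van_bound {n : ℕ} {B : Z → ℂ} (h : Van n B) : ∃ K : ℝ, 0 ≤ K ∧ ∀ z : Z, ‖z‖ ≤ 1 →
    ‖B z‖ ≤ K * ‖z‖ ^ n := by
  obtain ⟨_, K, hK⟩ := h
  refine ⟨|K|, abs_nonneg _, fun z hz => (hK z hz).trans ?_⟩
  exact mul_le_mul_of_nonneg_right (le_abs_self K) (by positivity)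

lemma norm_le_of_coords (z : Z) (t : ℝ) (ht : 0 ≤ t) (h : ∀ i, ‖z i‖ ≤ t) : ‖z‖ ≤ t :=
  (pi_norm_le_iff_of_nonneg ht).mpr h

/-- the disc around `3t/4` -/
lemma disc_bound (t : ℝ) (ht : 0 < t) (w : ℂ) (hw : w ∈ Metric.closedBall ((3 * t / 4 : ℝ) : ℂ) (t / 4)) :
    t / 2 ≤ ‖w‖ ∧ ‖w‖ ≤ t := by
  rw [Metric.mem_closedBall, dist_eq_norm] at hw
  have h1 : ‖((3 * t / 4 : ℝ) : ℂ)‖ = 3 * t / 4 := by
    rw [Complex.norm_real, Real.norm_of_nonneg (by positivity)]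
  constructor
  · have := norm_sub_norm_le (((3 * t / 4 : ℝ) : ℂ)) w
    rw [norm_sub_rev] at this
    linarith
  · have := norm_sub_norm_le w (((3 * t / 4 : ℝ) : ℂ))
    linarith

/-- choice of `t` -/
lemma exists_t (δ : ℝ) (hδ : 0 < δ) : ∃ R₀ : ℝ, 0 < R₀ ∧ ∀ R : ℝ, R₀ ≤ R →
    ∃ t : ℝ, 0 < t ∧ t ≤ δ ∧ R * t ^ 6 = 1 ∧ t ^ 5 = R ^ (-(5 / 6) : ℝ) ∧
      t ^ 4 = R ^ (-(2 / 3) : ℝ) := by
  refine ⟨δ ^ (-6 : ℝ), Real.rpow_pos_of_pos hδ _, fun R hR => ?_⟩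
  have hRpos : 0 < R := lt_of_lt_of_le (Real.rpow_pos_of_pos hδ _) hR
  refine ⟨R ^ (-(1 / 6) : ℝ), Real.rpow_pos_of_pos hRpos _, ?_, ?_, ?_, ?_⟩
  · have h1 : R ^ (-(1 / 6) : ℝ) ≤ (δ ^ (-6 : ℝ)) ^ (-(1 / 6) : ℝ) :=
      Real.rpow_le_rpow_of_nonpos (Real.rpow_pos_of_pos hδ _) hR (by norm_num)
    rw [← Real.rpow_mul hδ.le] at h1
    norm_num at h1
    norm_num
    exact h1
  · rw [← Real.rpow_natCast (R ^ (-(1 / 6) : ℝ)) 6, ← Real.rpow_mul hRpos.le]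
    norm_num
    rw [Real.rpow_neg_one, mul_inv_cancel₀ hRpos.ne']
  · rw [← Real.rpow_natCast (R ^ (-(1 / 6) : ℝ)) 5, ← Real.rpow_mul hRpos.le]
    norm_num
  · rw [← Real.rpow_natCast (R ^ (-(1 / 6) : ℝ)) 4, ← Real.rpow_mul hRpos.le]
    norm_num

/-- general form of the lower bound -/
lemma general (h : Z → ℂ) (hh : Measurable h) (den : Z → ℂ) (φ : Z → ℝ)
    (hφ0 : ∀ z, 0 ≤ φ z) (hφ1 : ∀ᶠ z in nhds 0, φ z = 1)
    (hint : Integrable (fun z => φ z / ‖den z‖)) (K₁ M : ℝ) (hM : 0 < M) (p : ℕ)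
    (A : ℝ → Fin 3 → Set ℂ) (hA : ∀ t i, MeasurableSet (A t i))
    (hfin : ∀ t i, volume (A t i) ≠ ⊤) (v : ℝ) (hv : 0 < v)
    (hvol : ∀ t : ℝ, 0 < t → ∏ i, (volume (A t i)).toReal = v * t ^ 6)
    (hAt : ∀ t : ℝ, 0 < t → ∀ z : Z, (∀ i, z i ∈ A t i) → ‖z‖ ≤ t)
    (hden : ∀ t : ℝ, 0 < t → ∀ z : Z, (∀ i, z i ∈ A t i) → 0 < ‖den z‖ ∧ ‖den z‖ ≤ M * t ^ p)
    (hh1 : ∀ t : ℝ, 0 < t → t ≤ 1 → ∀ z : Z, (∀ i, z i ∈ A t i) → ‖h z‖ ≤ K₁ * t ^ 3) :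
    ∃ c R₀ : ℝ, 0 < c ∧ 0 < R₀ ∧ ∀ R : ℝ, R₀ ≤ R → ∃ t : ℝ, 0 < t ∧ t ^ 5 = R ^ (-(5 / 6) : ℝ) ∧
      t ^ 4 = R ^ (-(2 / 3) : ℝ) ∧ c * (t ^ 6 / t ^ p) ≤
      ∫ z, φ z / ‖den z‖ * Real.exp (-(R * ‖h z‖ ^ 2)) := by
  obtain ⟨δ', hδ'0, hδ'⟩ := Metric.eventually_nhds_iff.mp hφ1
  set δ : ℝ := min (δ' / 2) 1 with hδdef
  have hδ : 0 < δ := lt_min (by positivity) one_pos
  obtain ⟨R₀, hR₀, hR⟩ := exists_t δ hδ
  refine ⟨1 / M * Real.exp (-(K₁ ^ 2)) * v, R₀, by positivity, hR₀, fun R hRR => ?_⟩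
  obtain ⟨t, ht0, htδ, ht6, ht5, ht4⟩ := hR R hRR
  have hRpos : 0 < R := lt_of_lt_of_le hR₀ hRR
  refine ⟨t, ht0, ht5, ht4, ?_⟩
  have hF0 : ∀ z, 0 ≤ φ z / ‖den z‖ * Real.exp (-(R * ‖h z‖ ^ 2)) := fun z =>
    mul_nonneg (div_nonneg (hφ0 z) (norm_nonneg _)) (Real.exp_pos _).le
  have hF : Integrable (fun z => φ z / ‖den z‖ * Real.exp (-(R * ‖h z‖ ^ 2))) := by
    refine hint.mul_bdd (c := 1) ?_ ?_
    · apply Measurable.aestronglyMeasurable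
      exact Real.measurable_exp.comp ((measurable_const.mul (hh.norm.pow_const 2)).neg)
    · refine ae_of_all _ (fun z => ?_)
      rw [Real.norm_of_nonneg (Real.exp_pos _).le, Real.exp_le_one_iff]
      have : 0 ≤ R * ‖h z‖ ^ 2 := by positivity
      linarith
  have key := lower _ hF hF0 (A t) (hA t) (hfin t) (1 / (M * t ^ p) * Real.exp (-(K₁ ^ 2))) ?_
  · rw [hvol t ht0] at key
    refine le_trans (le_of_eq ?_) key
    field_simp
  · intro z hz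
    have hzt := hAt t ht0 z hz
    have hz1 : φ z = 1 := by
      apply hδ'
      rw [dist_zero_right]
      have : δ ≤ δ' / 2 := min_le_left _ _
      linarith
    obtain ⟨hd1, hd2⟩ := hden t ht0 z hz
    have hhz := hh1 t ht0 (htδ.trans (min_le_right _ _)) z hz
    rw [hz1]
    apply mul_le_mul
    · exact one_div_le_one_div_of_le hd1 hd2
    · apply Real.exp_le_exp.mpr
      have h1 : ‖h z‖ ^ 2 ≤ (K₁ * t ^ 3) ^ 2 := by
        exact pow_le_pow_left₀ (norm_nonneg _) hhz 2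
      have h2 : R * ‖h z‖ ^ 2 ≤ R * (K₁ * t ^ 3) ^ 2 := mul_le_mul_of_nonneg_left h1 hRpos.le
      have h3 : R * (K₁ * t ^ 3) ^ 2 = K₁ ^ 2 * (R * t ^ 6) := by ring
      rw [h3, ht6, mul_one] at h2
      linarith
    · exact (Real.exp_pos _).le
    · positivity

theorem stmtLB2 : G_LB2 := by
  intro B C hB hC φ _ hφ0 hφ1 hint
  obtain ⟨KB, hKB0, hKB⟩ := van_bound hB
  obtain ⟨KC, hKC0, hKC⟩ := van_bound hC
  have hBm : Measurable B := hB.1.continuous.measurable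
  have hCm : Measurable C := hC.1.continuous.measurable
  have hhm : Measurable (fun z : Z => C z - B z ^ 2 / z 0) :=
    hCm.sub ((hBm.pow_const 2).div (measurable_pi_apply 0))
  set A : ℝ → Fin 3 → Set ℂ := fun t =>
    ![Metric.closedBall ((3 * t / 4 : ℝ) : ℂ) (t / 4), Metric.closedBall 0 t,
      Metric.closedBall 0 t] with hAdef
  have hcoord : ∀ t : ℝ, 0 < t → ∀ z : Z, (∀ i, z i ∈ A t i) →
      t / 2 ≤ ‖z 0‖ ∧ ‖z 0‖ ≤ t ∧ ‖z 1‖ ≤ t ∧ ‖z 2‖ ≤ t := by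
    intro t ht z hz
    have h0 : z 0 ∈ Metric.closedBall ((3 * t / 4 : ℝ) : ℂ) (t / 4) := hz 0
    have h1 : z 1 ∈ Metric.closedBall (0 : ℂ) t := hz 1
    have h2 : z 2 ∈ Metric.closedBall (0 : ℂ) t := hz 2
    rw [mem_closedBall_zero_iff] at h1 h2
    have := disc_bound t ht _ h0
    exact ⟨this.1, this.2, h1, h2⟩
  have hAt : ∀ t : ℝ, 0 < t → ∀ z : Z, (∀ i, z i ∈ A t i) → ‖z‖ ≤ t := by
    intro t ht z hz
    obtain ⟨h1, h2, h3, h4⟩ := hcoord t ht z hz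
    apply norm_le_of_coords z t ht.le
    intro i
    fin_cases i
    · exact h2
    · exact h3
    · exact h4
  obtain ⟨c, R₀, hc, hR₀, hmain⟩ := general (fun z : Z => C z - B z ^ 2 / z 0) hhm (fun z => z 0) φ
    hφ0 hφ1 hint (KC + 2 * KB ^ 2) 1 one_pos 1 A
    (by
      intro t i
      fin_cases i
      · exact Metric.isClosed_closedBall.measurableSet
      · exact Metric.isClosed_closedBall.measurableSet
      · exact Metric.isClosed_closedBall.measurableSet)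
    (by
      intro t i
      fin_cases i
      · exact vol_cb_fin _ _
      · exact vol_cb_fin _ _
      · exact vol_cb_fin _ _)
    (Real.pi ^ 3 / 16) (by positivity)
    (by
      intro t ht
      rw [Fin.prod_univ_three]
      change (volume (Metric.closedBall ((3 * t / 4 : ℝ) : ℂ) (t / 4))).toReal *
        (volume (Metric.closedBall (0 : ℂ) t)).toReal *
        (volume (Metric.closedBall (0 : ℂ) t)).toReal = _
      rw [vol_cb _ _ (by positivity), vol_cb _ _ ht.le]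
      ring)
    hAt
    (by
      intro t ht z hz
      obtain ⟨h1, h2, h3, h4⟩ := hcoord t ht z hz
      refine ⟨by linarith, by simpa using h2⟩)
    (by
      intro t ht ht1 z hz
      obtain ⟨h1, h2, h3, h4⟩ := hcoord t ht z hz
      have hzt := hAt t ht z hz
      have hz1 : ‖z‖ ≤ 1 := hzt.trans ht1
      have hBz : ‖B z‖ ≤ KB * t ^ 2 := (hKB z hz1).trans
        (mul_le_mul_of_nonneg_left (pow_le_pow_left₀ (norm_nonneg _) hzt 2) hKB0)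
      have hCz : ‖C z‖ ≤ KC * t ^ 3 := (hKC z hz1).trans
        (mul_le_mul_of_nonneg_left (pow_le_pow_left₀ (norm_nonneg _) hzt 3) hKC0)
      have h5 : ‖B z ^ 2 / z 0‖ ≤ 2 * KB ^ 2 * t ^ 3 := by
        rw [norm_div, norm_pow, div_le_iff₀ (by linarith)]
        have h6 : ‖B z‖ ^ 2 ≤ (KB * t ^ 2) ^ 2 := pow_le_pow_left₀ (norm_nonneg _) hBz 2
        have h7 : 2 * KB ^ 2 * t ^ 3 * (t / 2) ≤ 2 * KB ^ 2 * t ^ 3 * ‖z 0‖ :=
          mul_le_mul_of_nonneg_left h1 (by positivity)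
        have h8 : 2 * KB ^ 2 * t ^ 3 * (t / 2) = (KB * t ^ 2) ^ 2 := by ring
        linarith
      calc ‖C z - B z ^ 2 / z 0‖ ≤ ‖C z‖ + ‖B z ^ 2 / z 0‖ := norm_sub_le _ _
        _ ≤ KC * t ^ 3 + 2 * KB ^ 2 * t ^ 3 := add_le_add hCz h5
        _ = (KC + 2 * KB ^ 2) * t ^ 3 := by ring)
  refine ⟨c, R₀, hc, fun R hR => ?_⟩
  obtain ⟨t, ht0, ht5, _, hle⟩ := hmain R hR
  rw [← ht5]
  refine le_trans (le_of_eq ?_) hle
  field_simp

theorem stmtLB5 : G_LB5 := by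
  intro κ hκ N₁ N₂ C hN₁ hN₂ hC φ _ hφ0 hφ1 hint
  obtain ⟨K1, hK10, hK1⟩ := van_bound hN₁
  obtain ⟨K2, hK20, hK2⟩ := van_bound hN₂
  obtain ⟨KC, hKC0, hKC⟩ := van_bound hC
  have h1m : Measurable N₁ := hN₁.1.continuous.measurable
  have h2m : Measurable N₂ := hN₂.1.continuous.measurable
  have hCm : Measurable C := hC.1.continuous.measurable
  have hκ1 : ‖κ‖ ≤ 1 := by
    rcases hκ with h | h <;> simp [h]
  have hz0m : Measurable (fun z : Z => z 0) := measurable_pi_apply 0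
  have hz1m : Measurable (fun z : Z => z 1) := measurable_pi_apply 1
  have hz2m : Measurable (fun z : Z => z 2) := measurable_pi_apply 2
  have hhm : Measurable (hh5 κ N₁ N₂ C) := by
    unfold hh5
    refine (hCm.sub ((h2m.pow_const 2).div hz1m)).sub (Measurable.div ?_ ?_)
    · exact (h1m.sub (((hz2m.const_mul κ).mul h2m).div hz1m)).pow_const 2
    · exact hz0m.sub (((hz2m.const_mul κ).pow_const 2).div hz1m)
  set A : ℝ → Fin 3 → Set ℂ := fun t =>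
    ![Metric.closedBall ((3 * t / 4 : ℝ) : ℂ) (t / 4),
      Metric.closedBall ((3 * t / 4 : ℝ) : ℂ) (t / 4),
      Metric.closedBall 0 (t / 4)] with hAdef
  have hcoord : ∀ t : ℝ, 0 < t → ∀ z : Z, (∀ i, z i ∈ A t i) →
      t / 2 ≤ ‖z 0‖ ∧ ‖z 0‖ ≤ t ∧ t / 2 ≤ ‖z 1‖ ∧ ‖z 1‖ ≤ t ∧ ‖z 2‖ ≤ t / 4 := by
    intro t ht z hz
    have h0 : z 0 ∈ Metric.closedBall ((3 * t / 4 : ℝ) : ℂ) (t / 4) := hz 0
    have h1 : z 1 ∈ Metric.closedBall ((3 * t / 4 : ℝ) : ℂ) (t / 4) := hz 1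
    have h2 : z 2 ∈ Metric.closedBall (0 : ℂ) (t / 4) := hz 2
    rw [mem_closedBall_zero_iff] at h2
    have h3 := disc_bound t ht _ h0
    have h4 := disc_bound t ht _ h1
    exact ⟨h3.1, h3.2, h4.1, h4.2, h2⟩
  have hAt : ∀ t : ℝ, 0 < t → ∀ z : Z, (∀ i, z i ∈ A t i) → ‖z‖ ≤ t := by
    intro t ht z hz
    obtain ⟨h1, h2, h3, h4, h5⟩ := hcoord t ht z hz
    apply norm_le_of_coords z t ht.le
    intro i
    fin_cases i
    · exact h2
    · exact h4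
    · exact h5.trans (by linarith)
  have hkz : ∀ t : ℝ, 0 < t → ∀ z : Z, (∀ i, z i ∈ A t i) → ‖κ * z 2‖ ≤ t / 4 := by
    intro t ht z hz
    obtain ⟨h1, h2, h3, h4, h5⟩ := hcoord t ht z hz
    rw [norm_mul]
    calc ‖κ‖ * ‖z 2‖ ≤ 1 * (t / 4) := mul_le_mul hκ1 h5 (norm_nonneg _) (by norm_num)
      _ = t / 4 := one_mul _
  obtain ⟨c, R₀, hc, hR₀, hmain⟩ := general (hh5 κ N₁ N₂ C) hhm
    (fun z => z 0 * z 1 - (κ * z 2) ^ 2) φ
    hφ0 hφ1 hint (KC + 2 * K2 ^ 2 + (8 / 3) * (K1 + K2 / 2) ^ 2) (17 / 16) (by norm_num) 2 A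
    (by
      intro t i
      fin_cases i
      · exact Metric.isClosed_closedBall.measurableSet
      · exact Metric.isClosed_closedBall.measurableSet
      · exact Metric.isClosed_closedBall.measurableSet)
    (by
      intro t i
      fin_cases i
      · exact vol_cb_fin _ _
      · exact vol_cb_fin _ _
      · exact vol_cb_fin _ _)
    (Real.pi ^ 3 / 16 ^ 3) (by positivity)
    (by
      intro t ht
      rw [Fin.prod_univ_three]
      change (volume (Metric.closedBall ((3 * t / 4 : ℝ) : ℂ) (t / 4))).toReal *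
        (volume (Metric.closedBall ((3 * t / 4 : ℝ) : ℂ) (t / 4))).toReal *
        (volume (Metric.closedBall (0 : ℂ) (t / 4))).toReal = _
      rw [vol_cb _ _ (by positivity), vol_cb _ _ (by positivity)]
      ring)
    hAt
    (by
      intro t ht z hz
      obtain ⟨h1, h2, h3, h4, h5⟩ := hcoord t ht z hz
      have h6 := hkz t ht z hz
      have h7 : ‖(κ * z 2) ^ 2‖ ≤ (t / 4) ^ 2 := by
        rw [norm_pow]; exact pow_le_pow_left₀ (norm_nonneg _) h6 2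
      have h8 : ‖z 0 * z 1‖ ≤ t * t := by
        rw [norm_mul]; exact mul_le_mul h2 h4 (norm_nonneg _) ht.le
      have h9 : t / 2 * (t / 2) ≤ ‖z 0 * z 1‖ := by
        rw [norm_mul]; exact mul_le_mul h1 h3 (by positivity) (norm_nonneg _)
      constructor
      · have h10 := norm_sub_norm_le (z 0 * z 1) ((κ * z 2) ^ 2)
        have h11 : 0 < t ^ 2 := by positivity
        nlinarith
      · have h10 := norm_sub_le (z 0 * z 1) ((κ * z 2) ^ 2)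
        nlinarith)
    (by
      intro t ht ht1 z hz
      obtain ⟨h1, h2, h3, h4, h5⟩ := hcoord t ht z hz
      have h6 := hkz t ht z hz
      have hzt := hAt t ht z hz
      have hz1 : ‖z‖ ≤ 1 := hzt.trans ht1
      have hN1z : ‖N₁ z‖ ≤ K1 * t ^ 2 := (hK1 z hz1).trans
        (mul_le_mul_of_nonneg_left (pow_le_pow_left₀ (norm_nonneg _) hzt 2) hK10)
      have hN2z : ‖N₂ z‖ ≤ K2 * t ^ 2 := (hK2 z hz1).trans
        (mul_le_mul_of_nonneg_left (pow_le_pow_left₀ (norm_nonneg _) hzt 2) hK20)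
      have hCz : ‖C z‖ ≤ KC * t ^ 3 := (hKC z hz1).trans
        (mul_le_mul_of_nonneg_left (pow_le_pow_left₀ (norm_nonneg _) hzt 3) hKC0)
      have hz1pos : 0 < ‖z 1‖ := by linarith
      have e1 : ‖N₂ z ^ 2 / z 1‖ ≤ 2 * K2 ^ 2 * t ^ 3 := by
        rw [norm_div, norm_pow, div_le_iff₀ hz1pos]
        have h6 : ‖N₂ z‖ ^ 2 ≤ (K2 * t ^ 2) ^ 2 := pow_le_pow_left₀ (norm_nonneg _) hN2z 2
        have h7 : 2 * K2 ^ 2 * t ^ 3 * (t / 2) ≤ 2 * K2 ^ 2 * t ^ 3 * ‖z 1‖ :=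
          mul_le_mul_of_nonneg_left h3 (by positivity)
        have h8 : 2 * K2 ^ 2 * t ^ 3 * (t / 2) = (K2 * t ^ 2) ^ 2 := by ring
        linarith
      have e2 : ‖κ * z 2 * N₂ z / z 1‖ ≤ K2 / 2 * t ^ 2 := by
        rw [norm_div, norm_mul, div_le_iff₀ hz1pos]
        have h7 : ‖κ * z 2‖ * ‖N₂ z‖ ≤ t / 4 * (K2 * t ^ 2) :=
          mul_le_mul h6 hN2z (norm_nonneg _) (by positivity)
        have h8 : K2 / 2 * t ^ 2 * (t / 2) ≤ K2 / 2 * t ^ 2 * ‖z 1‖ :=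
          mul_le_mul_of_nonneg_left h3 (by positivity)
        have h9 : K2 / 2 * t ^ 2 * (t / 2) = t / 4 * (K2 * t ^ 2) := by ring
        linarith
      have e3 : ‖N₁ z - κ * z 2 * N₂ z / z 1‖ ≤ (K1 + K2 / 2) * t ^ 2 := by
        calc ‖N₁ z - κ * z 2 * N₂ z / z 1‖ ≤ ‖N₁ z‖ + ‖κ * z 2 * N₂ z / z 1‖ := norm_sub_le _ _
          _ ≤ K1 * t ^ 2 + K2 / 2 * t ^ 2 := add_le_add hN1z e2
          _ = (K1 + K2 / 2) * t ^ 2 := by ring
      have e4 : ‖(κ * z 2) ^ 2 / z 1‖ ≤ t / 8 := by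
        rw [norm_div, norm_pow, div_le_iff₀ hz1pos]
        have h7 : ‖κ * z 2‖ ^ 2 ≤ (t / 4) ^ 2 := pow_le_pow_left₀ (norm_nonneg _) h6 2
        nlinarith
      have e5 : 3 * t / 8 ≤ ‖z 0 - (κ * z 2) ^ 2 / z 1‖ := by
        have := norm_sub_norm_le (z 0) ((κ * z 2) ^ 2 / z 1)
        linarith
      have e6 : ‖(N₁ z - κ * z 2 * N₂ z / z 1) ^ 2 / (z 0 - (κ * z 2) ^ 2 / z 1)‖ ≤
          (8 / 3) * (K1 + K2 / 2) ^ 2 * t ^ 3 := by
        rw [norm_div, norm_pow, div_le_iff₀ (by linarith)]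
        have h7 : ‖N₁ z - κ * z 2 * N₂ z / z 1‖ ^ 2 ≤ ((K1 + K2 / 2) * t ^ 2) ^ 2 :=
          pow_le_pow_left₀ (norm_nonneg _) e3 2
        have h8 : (8 / 3) * (K1 + K2 / 2) ^ 2 * t ^ 3 * (3 * t / 8) ≤
            (8 / 3) * (K1 + K2 / 2) ^ 2 * t ^ 3 * ‖z 0 - (κ * z 2) ^ 2 / z 1‖ :=
          mul_le_mul_of_nonneg_left e5 (by positivity)
        have h9 : (8 / 3) * (K1 + K2 / 2) ^ 2 * t ^ 3 * (3 * t / 8) =
            ((K1 + K2 / 2) * t ^ 2) ^ 2 := by ring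
        linarith
      unfold hh5
      calc ‖C z - N₂ z ^ 2 / z 1 -
            (N₁ z - κ * z 2 * N₂ z / z 1) ^ 2 / (z 0 - (κ * z 2) ^ 2 / z 1)‖
          ≤ ‖C z - N₂ z ^ 2 / z 1‖ +
            ‖(N₁ z - κ * z 2 * N₂ z / z 1) ^ 2 / (z 0 - (κ * z 2) ^ 2 / z 1)‖ := norm_sub_le _ _
        _ ≤ (‖C z‖ + ‖N₂ z ^ 2 / z 1‖) + (8 / 3) * (K1 + K2 / 2) ^ 2 * t ^ 3 :=
            add_le_add (norm_sub_le _ _) e6
        _ ≤ (KC * t ^ 3 + 2 * K2 ^ 2 * t ^ 3) + (8 / 3) * (K1 + K2 / 2) ^ 2 * t ^ 3 := by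
            gcongr
        _ = (KC + 2 * K2 ^ 2 + (8 / 3) * (K1 + K2 / 2) ^ 2) * t ^ 3 := by ring)
  refine ⟨c, R₀, hc, fun R hR => ?_⟩
  obtain ⟨t, ht0, _, ht4, hle⟩ := hmain R hR
  rw [← ht4]
  refine le_trans (le_of_eq ?_) hle
  field_simp

end Helper50CF
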